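import Mathlib
import Pool.Agent.Helper96.AW.GoalsA

/-!
Project AW (MP_af6c86_pr), packet GG: kernels of small genus are superexponentially rare.
-/

namespace Pool.Agent.Helper97.AW.GG

open Finset Filter Topology Pool.Agent.Helper26.AF Pool.Agent.Helper26.AL Pool.Agent.Helper96.AW

lemma card_KX (s : ℕ) : Fintype.card (KX s) = 2 * (3 * s) := by
  simp [KX]; ring

/-- the number of rotations -/
lemma card_rot (s : ℕ) : Nat.card {σ : Equiv.Perm (KX s) // RotX σ} ≤ 729 ^ s := by
  have h : Nat.card (KX s → Fin 3) = 729 ^ s := by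
    rw [Nat.card_eq_fintype_card, Fintype.card_fun, Fintype.card_fin, card_KX,
      show 2 * (3 * s) = 6 * s by ring, pow_mul]
    norm_num
  rw [← h]
  refine Nat.card_le_card_of_injective (fun σ => fun x => (σ.1 x).2) ?_
  intro σ τ hστ
  apply Subtype.ext
  ext x
  · have h1 := σ.2.1 x
    have h2 := τ.2.1 x
    rw [h1, h2]
  · have := congrFun hστ x
    simp only at this
    rw [this]

lemma fix_rot {s : ℕ} {σ : Equiv.Perm (KX s)} (hσ : RotX σ) : fix σ = 0 := by
  rw [fix, Nat.card_eq_zero]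
  left
  constructor
  rintro ⟨x, hx⟩
  have h1 : ∃ j : Fin 3, j ≠ x.2 := exists_ne _
  obtain ⟨j, hj⟩ := h1
  obtain ⟨i, hi⟩ := hσ.2 x (x.1, j) rfl
  rw [Equiv.Perm.zpow_apply_eq_self_of_apply_eq_self hx] at hi
  exact hj (congrArg Prod.snd hi).symm

lemma dfact (m : ℕ) : ((Nat.doubleFactorial (2 * m - 1) : ℕ) : ℝ) = ∏ i ∈ range m, (2 * (i : ℝ) + 1) := by
  induction m with
  | zero => simp
  | succ m ih =>
    rw [prod_range_succ, ← ih]
    rcases m with _ | m
    · simp
    · rw [show 2 * (m + 1 + 1) - 1 = (2 * (m + 1) - 1) + 2 by omega, Nat.doubleFactorial_add_two]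
      rw [Nat.cast_mul, mul_comm]
      congr 1
      rw [show 2 * (m + 1) - 1 + 2 = 2 * (m + 1) + 1 by omega]
      push_cast
      ring

lemma sum_le (n : ℕ) :
    ∑ i ∈ range n, 1 / (2 * (i : ℝ) + 1) ≤ 1 + Real.log n := by
  refine le_trans ?_ (harmonic_le_one_add_log n)
  rw [harmonic]
  push_cast
  refine sum_le_sum fun i _ => ?_
  rw [one_div]
  have hi : (0 : ℝ) ≤ i := Nat.cast_nonneg i
  refine inv_anti₀ (by positivity) (by linarith)

lemma prod_le (n : ℕ) (A : ℝ) (hA : 0 ≤ A) :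
    ∏ i ∈ range n, (2 * (i : ℝ) + 1 + A)
      ≤ (∏ i ∈ range n, (2 * (i : ℝ) + 1)) * Real.exp (A * (1 + Real.log n)) := by
  have h1 : ∏ i ∈ range n, (2 * (i : ℝ) + 1 + A)
      ≤ ∏ i ∈ range n, ((2 * (i : ℝ) + 1) * Real.exp (A * (1 / (2 * (i : ℝ) + 1)))) := by
    refine prod_le_prod (fun i _ => by positivity) (fun i _ => ?_)
    have h2 := Real.add_one_le_exp (A * (1 / (2 * (i : ℝ) + 1)))
    have h3 : (0 : ℝ) < 2 * (i : ℝ) + 1 := by positivity
    calc 2 * (i : ℝ) + 1 + A = (2 * (i : ℝ) + 1) * (A * (1 / (2 * (i : ℝ) + 1)) + 1) := by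
          field_simp; ring
      _ ≤ _ := mul_le_mul_of_nonneg_left h2 h3.le
  refine h1.trans ?_
  rw [prod_mul_distrib, ← Real.exp_sum, ← mul_sum]
  refine mul_le_mul_of_nonneg_left ?_ (prod_nonneg fun i _ => by positivity)
  exact Real.exp_le_exp.2 (mul_le_mul_of_nonneg_left (sum_le n) hA)

open Classical in
/-- Markov -/
lemma markov
    (H : ∀ (m : ℕ) (D : Type) [Fintype D] [DecidableEq D] (σ : Equiv.Perm D) (x : ℝ),
      Fintype.card D = 2 * m → 1 ≤ x →
      ∑ κ ∈ (univ : Finset (Equiv.Perm D)).filter IsPair, x ^ orb (σ * κ)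
        ≤ x ^ fix σ * ∏ i ∈ range m, (2 * (i : ℝ) + 1 + 4 * x ^ 4))
    (g s : ℕ) (x : ℝ) (hx : 1 ≤ x) :
    x ^ s * (Nat.card {κ : Equiv.Perm (KX s) // IsPair κ ∧ EmbX g κ} : ℝ)
      ≤ x ^ (2 * g) * (729 ^ s * ∏ i ∈ range (3 * s), (2 * (i : ℝ) + 1 + 4 * x ^ 4)) := by
  classical
  have hx0 : (0 : ℝ) < x := by linarith
  set R : Finset (Equiv.Perm (KX s)) := univ.filter (fun σ => RotX σ) with hR
  have hRc : (#R : ℝ) ≤ 729 ^ s := by
    have := card_rot s
    rw [Nat.card_eq_fintype_card, Fintype.card_subtype] at this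
    exact_mod_cast this
  have h1 : (Nat.card {κ : Equiv.Perm (KX s) // IsPair κ ∧ EmbX g κ} : ℝ)
      ≤ ∑ σ ∈ R, ∑ κ ∈ (univ : Finset (Equiv.Perm (KX s))).filter (fun κ => IsPair κ),
        (if s ≤ orb (σ * κ) + 2 * g then (1 : ℝ) else 0) := by
    rw [sum_comm, Nat.card_eq_fintype_card, Fintype.card_subtype]
    have h2 : (univ : Finset (Equiv.Perm (KX s))).filter (fun κ => IsPair κ ∧ EmbX g κ)
        = ((univ : Finset (Equiv.Perm (KX s))).filter (fun κ => IsPair κ)).filter
          (fun κ => EmbX g κ) := by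
      rw [filter_filter]
    rw [h2, card_filter]
    push_cast
    refine sum_le_sum fun κ _ => ?_
    by_cases h : EmbX g κ
    · rw [if_pos h]
      obtain ⟨σ, hσ, h3⟩ := h
      have h4 : (1 : ℝ) = (if s ≤ orb (σ * κ) + 2 * g then (1 : ℝ) else 0) := by
        rw [if_pos (by omega)]
      refine h4.le.trans ?_
      exact single_le_sum (f := fun σ => (if s ≤ orb (σ * κ) + 2 * g then (1 : ℝ) else 0))
        (fun τ _ => by
          show (0 : ℝ) ≤ (if s ≤ orb (τ * κ) + 2 * g then (1 : ℝ) else 0)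
          split_ifs <;> norm_num) (mem_filter.2 ⟨mem_univ _, hσ⟩)
    · rw [if_neg h]
      exact sum_nonneg fun τ _ => by split_ifs <;> norm_num
  calc x ^ s * (Nat.card {κ : Equiv.Perm (KX s) // IsPair κ ∧ EmbX g κ} : ℝ)
      ≤ x ^ s * ∑ σ ∈ R, ∑ κ ∈ (univ : Finset (Equiv.Perm (KX s))).filter (fun κ => IsPair κ),
        (if s ≤ orb (σ * κ) + 2 * g then (1 : ℝ) else 0) :=
        mul_le_mul_of_nonneg_left h1 (by positivity)
    _ = ∑ σ ∈ R, ∑ κ ∈ (univ : Finset (Equiv.Perm (KX s))).filter (fun κ => IsPair κ),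
        x ^ s * (if s ≤ orb (σ * κ) + 2 * g then (1 : ℝ) else 0) := by
        rw [mul_sum]
        exact sum_congr rfl fun σ _ => by rw [mul_sum]
    _ ≤ ∑ σ ∈ R, ∑ κ ∈ (univ : Finset (Equiv.Perm (KX s))).filter (fun κ => IsPair κ),
        x ^ (2 * g) * x ^ orb (σ * κ) := by
        refine sum_le_sum fun σ _ => sum_le_sum fun κ _ => ?_
        split_ifs with h
        · rw [mul_one, ← pow_add]
          exact pow_le_pow_right₀ hx (by omega)
        · rw [mul_zero]
          positivity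
    _ ≤ ∑ σ ∈ R, x ^ (2 * g) * ∏ i ∈ range (3 * s), (2 * (i : ℝ) + 1 + 4 * x ^ 4) := by
        refine sum_le_sum fun σ hσ => ?_
        rw [← mul_sum]
        refine mul_le_mul_of_nonneg_left ?_ (by positivity)
        have h5 : RotX σ := (mem_filter.1 hσ).2
        have h6 := H (3 * s) (KX s) σ x (card_KX s) hx
        rw [fix_rot h5, pow_zero, one_mul] at h6
        exact h6
    _ = #R * (x ^ (2 * g) * ∏ i ∈ range (3 * s), (2 * (i : ℝ) + 1 + 4 * x ^ 4)) := by
        rw [sum_const, nsmul_eq_mul]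
    _ ≤ 729 ^ s * (x ^ (2 * g) * ∏ i ∈ range (3 * s), (2 * (i : ℝ) + 1 + 4 * x ^ 4)) := by
        refine mul_le_mul_of_nonneg_right hRc ?_
        exact mul_nonneg (by positivity) (prod_nonneg fun i _ => by positivity)
    _ = _ := by ring

lemma log_small (A : ℝ) : ∃ s₀ : ℕ, ∀ s : ℕ, s₀ ≤ s → A * (1 + Real.log ((3 * s : ℕ) : ℝ)) ≤ s := by
  have h1 : Tendsto (fun s : ℕ => A * (1 + Real.log ((3 * s : ℕ) : ℝ)) / s) atTop (𝓝 0) := by
    have h2 : Tendsto (fun y : ℝ => Real.log y / y) atTop (𝓝 0) := by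
      have := Real.isLittleO_log_id_atTop
      exact this.tendsto_div_nhds_zero
    have h3 : Tendsto (fun s : ℕ => ((3 * s : ℕ) : ℝ)) atTop atTop := by
      push_cast
      exact Tendsto.const_mul_atTop (by norm_num) tendsto_natCast_atTop_atTop
    have h4 := h2.comp h3
    have h5 : Tendsto (fun s : ℕ => (1 : ℝ) / s) atTop (𝓝 0) := tendsto_one_div_atTop_nhds_zero_nat
    have h6 := ((h5.const_mul A).add (h4.const_mul (3 * A)))
    simp only [mul_zero, add_zero] at h6
    refine h6.congr' ?_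
    filter_upwards [eventually_ge_atTop 1] with s hs
    have hs' : (s : ℝ) ≠ 0 := by positivity
    simp only [Function.comp]
    push_cast
    field_simp
  have h2 := h1.eventually (gt_mem_nhds (show (0 : ℝ) < 1 by norm_num))
  obtain ⟨s₀, hs₀⟩ := eventually_atTop.1 (h2.and (eventually_ge_atTop 1))
  refine ⟨s₀, fun s hs => ?_⟩
  obtain ⟨h3, h4⟩ := hs₀ s hs
  have hs' : (0 : ℝ) < s := by positivity
  rw [div_lt_one hs'] at h3
  exact h3.le

theorem t : S_GG := by
  classical
  intro H δ K hδ hK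
  set η : ℝ := δ / (2 + δ) with hη
  have hη0 : 0 < η := by positivity
  set X : ℝ := (Real.log 729 + K + 1) / η with hX
  have hlog : 0 ≤ Real.log 729 := Real.log_nonneg (by norm_num)
  have hX0 : 0 ≤ X := by positivity
  have hXη : η * X = Real.log 729 + K + 1 := by
    rw [hX]; field_simp
  set x : ℝ := Real.exp X with hx
  have hx1 : 1 ≤ x := Real.one_le_exp hX0
  obtain ⟨s₀, hs₀⟩ := log_small (4 * x ^ 4)
  refine ⟨max s₀ 1, fun g hg s hs => ?_⟩
  have hg1 : 1 ≤ g := (le_max_right _ _).trans hg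
  have hgr : s₀ ≤ g := (le_max_left _ _).trans hg
  have hg1' : (1 : ℝ) ≤ g := by exact_mod_cast hg1
  have hgs' : (g : ℝ) ≤ s := by nlinarith
  have hgs : g ≤ s := by exact_mod_cast hgs'
  have hs1 : 1 ≤ s := hg1.trans hgs
  have hs1' : (1 : ℝ) ≤ s := by exact_mod_cast hs1
  have hM := markov (fun m D _ _ σ x h1 h2 => H m D σ x h1 h2) g s x hx1
  have hP := prod_le (3 * s) (4 * x ^ 4) (by positivity)
  rw [← dfact (3 * s), show 2 * (3 * s) - 1 = 6 * s - 1 by omega] at hP
  set N : ℝ := (Nat.card {κ : Equiv.Perm (KX s) // IsPair κ ∧ EmbX g κ} : ℝ) with hN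
  set Q : ℝ := ((Nat.doubleFactorial (6 * s - 1) : ℕ) : ℝ) with hQ
  have hQ0 : 0 < Q := by
    rw [hQ]; exact_mod_cast Nat.doubleFactorial_pos _
  have key : N ≤ Real.exp (-(K * g)) * Q := by
    have h1 : x ^ s * N ≤ x ^ (2 * g) * (729 ^ s * (Q * Real.exp (s : ℝ))) := by
      refine hM.trans ?_
      refine mul_le_mul_of_nonneg_left ?_ (by positivity)
      refine mul_le_mul_of_nonneg_left ?_ (by positivity)
      refine hP.trans ?_
      refine mul_le_mul_of_nonneg_left ?_ hQ0.le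
      exact Real.exp_le_exp.2 (hs₀ s (hgr.trans hgs))
    have hxs : x ^ s = Real.exp (s * X) := by rw [hx, ← Real.exp_nat_mul]
    have hxg : x ^ (2 * g) = Real.exp (2 * g * X) := by
      rw [hx, ← Real.exp_nat_mul]; push_cast; rfl
    have h729 : (729 : ℝ) ^ s = Real.exp (s * Real.log 729) := by
      rw [Real.exp_nat_mul, Real.exp_log (by norm_num)]
    have h2 : Real.exp (s * X) * N
        ≤ Real.exp (s * X) * (Real.exp (-(K * g)) * Q) := by
      rw [hxs, hxg, h729] at h1
      refine h1.trans ?_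
      have h3 : Real.exp (2 * g * X) * (Real.exp (s * Real.log 729) * (Q * Real.exp (s : ℝ)))
          = Q * Real.exp (2 * g * X + s * Real.log 729 + s) := by
        rw [Real.exp_add, Real.exp_add]; ring
      have h4 : Real.exp (s * X) * (Real.exp (-(K * g)) * Q)
          = Q * Real.exp (s * X + -(K * g)) := by
        rw [Real.exp_add]; ring
      rw [h3, h4]
      refine mul_le_mul_of_nonneg_left ?_ hQ0.le
      refine Real.exp_le_exp.2 ?_
      -- s - 2 g ≥ η s
      have h5 : η * s ≤ s - 2 * g := by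
        have h6 : (g : ℝ) ≤ s / (2 + δ) := by
          rw [le_div_iff₀ (by positivity)]
          linarith
        have h7 : η * s = s - 2 * (s / (2 + δ)) := by
          rw [hη]; field_simp; ring
        rw [h7]
        linarith
      have h8 : η * s * X ≤ (s - 2 * g) * X := mul_le_mul_of_nonneg_right h5 hX0
      have h9 : η * s * X = s * (Real.log 729 + K + 1) := by rw [← hXη]; ring
      have h10 : K * g ≤ K * s := mul_le_mul_of_nonneg_left hgs' hK.le
      nlinarith
    exact le_of_mul_le_mul_left h2 (Real.exp_pos _)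
  unfold eg ee
  rw [← hN, ← mul_div_assoc]
  refine div_le_div_of_nonneg_right ?_ (by positivity)
  exact key

end Pool.Agent.Helper97.AW.GG
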